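import Pool.Agent.Helper50.VD.St

open MeasureTheory Set Filter Topology
open scoped ENNReal

noncomputable section

namespace VD.M_A3

/-- one sector -/
theorem sector (x0 h0 x1 h1 dh dx c r x y : ℝ) (hD : 0 < x1 * h0 - x0 * h1) (hc : 0 < c)
    (e0 : dh * x0 + dx * h0 = c) (e1 : dh * x1 + dx * h1 = c)
    (hs : 0 ≤ x1 * y - h1 * x) (ht : 0 ≤ h0 * x - x0 * y) (he : dh * x + dx * y ≤ c * r)
    (q0 : x0 ^ 2 * 3887 ^ 2 + h0 ^ 2 * 6475 ^ 2 ≤ 3887 ^ 2 * 6475 ^ 2)
    (q1 : x1 ^ 2 * 3887 ^ 2 + h1 ^ 2 * 6475 ^ 2 ≤ 3887 ^ 2 * 6475 ^ 2) :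
    x ^ 2 * 3887 ^ 2 + y ^ 2 * 6475 ^ 2 ≤ 3887 ^ 2 * 6475 ^ 2 * r ^ 2 := by
  set D := x1 * h0 - x0 * h1 with hDdef
  obtain ⟨s, hs'⟩ : ∃ s, s = (x1 * y - h1 * x) / D := ⟨_, rfl⟩
  obtain ⟨t, ht'⟩ : ∃ t, t = (h0 * x - x0 * y) / D := ⟨_, rfl⟩
  have s0 : 0 ≤ s := by rw [hs']; positivity
  have t0 : 0 ≤ t := by rw [ht']; positivity
  have hD' : D ≠ 0 := hD.ne'
  have hx : x = s * x0 + t * x1 := by
    have : s * x0 + t * x1 = x * (x1 * h0 - x0 * h1) / D := by
      rw [hs', ht']; field_simp; ring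
    rw [this, ← hDdef]; field_simp
  have hy : y = s * h0 + t * h1 := by
    have : s * h0 + t * h1 = y * (x1 * h0 - x0 * h1) / D := by
      rw [hs', ht']; field_simp; ring
    rw [this, ← hDdef]; field_simp
  have hst : s + t ≤ r := by
    have h1 : c * (s + t) ≤ c * r := by
      have : dh * x + dx * y = c * (s + t) := by
        rw [hx, hy, mul_add, ← e0]
        nlinarith [e0, e1]
      linarith
    exact le_of_mul_le_mul_left h1 hc
  have hr : 0 ≤ s + t := by positivity
  have hcs : x0 * x1 * 3887 ^ 2 + h0 * h1 * 6475 ^ 2 ≤ 3887 ^ 2 * 6475 ^ 2 := by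
    nlinarith [sq_nonneg (x0 - x1), sq_nonneg (h0 - h1)]
  have h1 : x ^ 2 * 3887 ^ 2 + y ^ 2 * 6475 ^ 2 ≤ 3887 ^ 2 * 6475 ^ 2 * (s + t) ^ 2 := by
    have e : x ^ 2 * 3887 ^ 2 + y ^ 2 * 6475 ^ 2 =
        s ^ 2 * (x0 ^ 2 * 3887 ^ 2 + h0 ^ 2 * 6475 ^ 2) +
        2 * (s * t) * (x0 * x1 * 3887 ^ 2 + h0 * h1 * 6475 ^ 2) +
        t ^ 2 * (x1 ^ 2 * 3887 ^ 2 + h1 ^ 2 * 6475 ^ 2) := by
      rw [hx, hy]; ring
    rw [e]
    have a1 := mul_le_mul_of_nonneg_left q0 (sq_nonneg s)
    have a2 := mul_le_mul_of_nonneg_left hcs (show 0 ≤ 2 * (s * t) by positivity)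
    have a3 := mul_le_mul_of_nonneg_left q1 (sq_nonneg t)
    nlinarith
  have h2 : (s + t) ^ 2 ≤ r ^ 2 := pow_le_pow_left₀ hr hst 2
  nlinarith

theorem ell (r x y : ℝ) (hx : 0 ≤ x) (hy : 0 ≤ y) (h : g (x, y) ≤ r) :
    x ^ 2 * 3887 ^ 2 + y ^ 2 * 6475 ^ 2 ≤ 3887 ^ 2 * 6475 ^ 2 * r ^ 2 := by
  simp only [g, gE, Es, max_le_iff, abs_of_nonneg hx] at h
  obtain ⟨k0, k1, k2, k3, k4, k5, k6, k7, k8, k9, k10, k11, hr⟩ := h
  push_cast at *
  rw [div_le_iff₀ (by norm_num)] at k0 k1 k2 k3 k4 k5 k6 k7 k8 k9 k10 k11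
  rcases le_total (3839 * x - 896 * y) 0 with c1 | c1
  · exact sector 0 3887 896 3839 48 896 3482752 r x y (by norm_num) (by norm_num) (by norm_num)
      (by norm_num) (by linarith) (by linarith) (by linarith) (by norm_num) (by norm_num)
  rcases le_total (3695 * x - 1776 * y) 0 with c2 | c2
  · exact sector 896 3839 1776 3695 144 880 3507344 r x y (by norm_num) (by norm_num) (by norm_num)
      (by norm_num) (by linarith) (by linarith) (by linarith) (by norm_num) (by norm_num)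
  rcases le_total (3461 * x - 2622 * y) 0 with c3 | c3
  · exact sector 1776 3695 2622 3461 234 846 3541554 r x y (by norm_num) (by norm_num) (by norm_num)
      (by norm_num) (by linarith) (by linarith) (by linarith) (by norm_num) (by norm_num)
  rcases le_total (3144 * x - 3415 * y) 0 with c4 | c4
  · exact sector 2622 3461 3415 3144 317 793 3575747 r x y (by norm_num) (by norm_num) (by norm_num)
      (by norm_num) (by linarith) (by linarith) (by linarith) (by norm_num) (by norm_num)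
  rcases le_total (2759 * x - 4135 * y) 0 with c5 | c5
  · exact sector 3415 3144 4135 2759 385 720 3578455 r x y (by norm_num) (by norm_num) (by norm_num)
      (by norm_num) (by linarith) (by linarith) (by linarith) (by norm_num) (by norm_num)
  rcases le_total (2325 * x - 4768 * y) 0 with c6 | c6
  · exact sector 4135 2759 4768 2325 434 633 3541037 r x y (by norm_num) (by norm_num) (by norm_num)
      (by norm_num) (by linarith) (by linarith) (by linarith) (by norm_num) (by norm_num)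
  rcases le_total (1860 * x - 5304 * y) 0 with c7 | c7
  · exact sector 4768 2325 5304 1860 465 536 3463320 r x y (by norm_num) (by norm_num) (by norm_num)
      (by norm_num) (by linarith) (by linarith) (by linarith) (by norm_num) (by norm_num)
  rcases le_total (1388 * x - 5738 * y) 0 with c8 | c8
  · exact sector 5304 1860 5738 1388 472 434 3310728 r x y (by norm_num) (by norm_num) (by norm_num)
      (by norm_num) (by linarith) (by linarith) (by linarith) (by norm_num) (by norm_num)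
  rcases le_total (934 * x - 6067 * y) 0 with c9 | c9
  · exact sector 5738 1388 6067 934 454 329 3061704 r x y (by norm_num) (by norm_num) (by norm_num)
      (by norm_num) (by linarith) (by linarith) (by linarith) (by norm_num) (by norm_num)
  rcases le_total (524 * x - 6295 * y) 0 with c10 | c10
  · exact sector 6067 934 6295 524 410 228 2700422 r x y (by norm_num) (by norm_num) (by norm_num)
      (by norm_num) (by linarith) (by linarith) (by linarith) (by norm_num) (by norm_num)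
  rcases le_total (191 * x - 6429 * y) 0 with c11 | c11
  · exact sector 6295 524 6429 191 333 134 2166451 r x y (by norm_num) (by norm_num) (by norm_num)
      (by norm_num) (by linarith) (by linarith) (by linarith) (by norm_num) (by norm_num)
  · exact sector 6429 191 6475 0 191 46 1236725 r x y (by norm_num) (by norm_num) (by norm_num)
      (by norm_num) (by linarith) (by linarith) (by linarith) (by norm_num) (by norm_num)

end VD.M_A3

namespace VD

/-- polygon inside the ellipse -/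
theorem mA3 (_hP0 : StP0) : StA3 := by
  intro r z hr h1 h2 hg
  have h := M_A3.ell r z.1 z.2 h1 h2 hg
  have h' : z.2 ^ 2 * (6475 * r) ^ 2 ≤ (3887 * r) ^ 2 * ((6475 * r) ^ 2 - z.1 ^ 2) := by
    have e : (3887 * r) ^ 2 * ((6475 * r) ^ 2 - z.1 ^ 2) - z.2 ^ 2 * (6475 * r) ^ 2 =
        r ^ 2 * (3887 ^ 2 * 6475 ^ 2 * r ^ 2 - (z.1 ^ 2 * 3887 ^ 2 + z.2 ^ 2 * 6475 ^ 2)) := by
      ring
    have : 0 ≤ r ^ 2 * (3887 ^ 2 * 6475 ^ 2 * r ^ 2 - (z.1 ^ 2 * 3887 ^ 2 + z.2 ^ 2 * 6475 ^ 2)) := by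
      apply mul_nonneg (by positivity); linarith
    linarith
  nlinarith

end VD
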