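import Pool.Agent.Helper50.VD.St

open MeasureTheory Set Filter Topology
open scoped ENNReal

noncomputable section

namespace VD.M_T4

theorem vmx_eq (z n ax ay bx by' s0 s1 : ℕ) : vmx z n ax ay bx by' s0 s1 =
    max (max (n + (s0 * ax) * (s0 * ax) + (s0 * ay) * (s0 * ay) - 2 * z * (s0 * ax))
         (n + (s1 * ax) * (s1 * ax) + (s1 * ay) * (s1 * ay) - 2 * z * (s1 * ax)))
     (max (n + (s0 * bx) * (s0 * bx) + (s0 * by') * (s0 * by') - 2 * z * (s0 * bx))
         (n + (s1 * bx) * (s1 * bx) + (s1 * by') * (s1 * by') - 2 * z * (s1 * bx))) := by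
  rw [← mx_eq, ← mx_eq, ← mx_eq]; rfl

theorem vpx_eq (z n ax ay bx by' s1 : ℕ) : vpx z n ax ay bx by' s1 =
    max (n + (s1 * ax) * (s1 * ax) + (s1 * ay) * (s1 * ay) + 2 * z * (s1 * ax))
     (n + (s1 * bx) * (s1 * bx) + (s1 * by') * (s1 * by') + 2 * z * (s1 * bx)) := by
  rw [← mx_eq]; rfl

theorem fc2_eq (z n ax ay bx by' s0 s1 : ℕ) : fc2 z n ax ay bx by' s0 s1 =
    1000000000000000000000000000000 / vmx z n ax ay bx by' s0 s1 +
    1000000000000000000000000000000 / vpx z n ax ay bx by' s1 := rfl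

/-- the cell function, `e = ∓ 2 z` -/
def V (n e s ax ay : ℝ) : ℝ := n + (s * ax) ^ 2 + (s * ay) ^ 2 + e * (s * ax)

/-- convexity in the direction of the side -/
theorem V_u (n e s ax ay bx by' u K : ℝ) (hu0 : 0 ≤ u) (hu1 : u ≤ 1)
    (h1 : V n e s ax ay ≤ K) (h2 : V n e s bx by' ≤ K) :
    V n e s ((1 - u) * ax + u * bx) ((1 - u) * ay + u * by') ≤ K := by
  have e1 : V n e s ((1 - u) * ax + u * bx) ((1 - u) * ay + u * by') =
      (1 - u) * V n e s ax ay + u * V n e s bx by' -
        u * (1 - u) * ((s * (ax - bx)) ^ 2 + (s * (ay - by')) ^ 2) := by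
    unfold V; ring
  have h3 : 0 ≤ u * (1 - u) * ((s * (ax - bx)) ^ 2 + (s * (ay - by')) ^ 2) := by
    have : 0 ≤ 1 - u := by linarith
    positivity
  have h4 := mul_le_mul_of_nonneg_left h1 (show 0 ≤ 1 - u by linarith)
  have h5 := mul_le_mul_of_nonneg_left h2 hu0
  rw [e1]; nlinarith

/-- convexity in the radial direction -/
theorem V_s (n e s s0 s1 ax ay K : ℝ) (h0 : s0 ≤ s) (h1 : s ≤ s1)
    (k0 : V n e s0 ax ay ≤ K) (k1 : V n e s1 ax ay ≤ K) : V n e s ax ay ≤ K := by
  rcases eq_or_lt_of_le (h0.trans h1) with h | h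
  · have : s = s0 := le_antisymm (by linarith) h0
    rw [this]; exact k0
  have e1 : (s1 - s0) * V n e s ax ay = (s1 - s) * V n e s0 ax ay + (s - s0) * V n e s1 ax ay -
      (s1 - s) * (s - s0) * (s1 - s0) * (ax ^ 2 + ay ^ 2) := by
    unfold V; ring
  have h3 : 0 ≤ (s1 - s) * (s - s0) * (s1 - s0) * (ax ^ 2 + ay ^ 2) := by
    have a1 : 0 ≤ s1 - s := by linarith
    have a2 : 0 ≤ s - s0 := by linarith
    have a3 : 0 ≤ s1 - s0 := by linarith
    positivity
  have h4 := mul_le_mul_of_nonneg_left k0 (show 0 ≤ s1 - s by linarith)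
  have h5 := mul_le_mul_of_nonneg_left k1 (show 0 ≤ s - s0 by linarith)
  have h6 : (s1 - s0) * V n e s ax ay ≤ (s1 - s0) * K := by nlinarith
  exact le_of_mul_le_mul_left h6 (by linarith)

end VD.M_T4

namespace VD

open VD.M_T4

/-- soundness of fc2 (corners of a cell) -/
theorem mT4 : StT4 := by
  intro z n ax ay bx by' s0 s1 hz hs hab hba hs0 hay s u hs0' hs1' hu0 hu1
  have hz' : (z : ℝ) ^ 2 ≤ n := by exact_mod_cast hz
  have hs0r : (0 : ℝ) < s0 := by exact_mod_cast hs0
  have hsp : 0 < s := by linarith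
  have hayr : (0 : ℝ) < ay := by exact_mod_cast hay
  have hu1' : 0 < 1 - u := by linarith
  have hsub : ∀ c d : ℕ, 2 * z * c ≤ n + c * c + d * d := by
    intro c d
    have : (2 * (z : ℝ) * c) ≤ n + c * c + d * d := by
      nlinarith [sq_nonneg ((z : ℝ) - c), sq_nonneg (d : ℝ)]
    exact_mod_cast this
  -- V₋
  have hm : V n (-2 * z) s ((1 - u) * ax + u * bx) ((1 - u) * ay + u * by') ≤
      (vmx z n ax ay bx by' s0 s1 : ℝ) := by
    rw [vmx_eq]
    push_cast [Nat.cast_sub (hsub _ _)]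
    apply V_u _ _ _ _ _ _ _ _ _ hu0.le hu1.le
    · refine le_trans ?_ (le_max_left _ _)
      apply V_s _ _ _ s0 s1 _ _ _ hs0' hs1'
      · refine le_trans (le_of_eq ?_) (le_max_left _ _)
        unfold V; ring
      · refine le_trans (le_of_eq ?_) (le_max_right _ _)
        unfold V; ring
    · refine le_trans ?_ (le_max_right _ _)
      apply V_s _ _ _ s0 s1 _ _ _ hs0' hs1'
      · refine le_trans (le_of_eq ?_) (le_max_left _ _)
        unfold V; ring
      · refine le_trans (le_of_eq ?_) (le_max_right _ _)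
        unfold V; ring
  -- V₊
  have hp : V n (2 * z) s ((1 - u) * ax + u * bx) ((1 - u) * ay + u * by') ≤
      (vpx z n ax ay bx by' s1 : ℝ) := by
    rw [vpx_eq]
    push_cast
    have mono : ∀ cx cy : ℕ, V n (2 * z) s cx cy ≤ V n (2 * z) s1 cx cy := by
      intro cx cy
      unfold V
      have a1 : s * cx ≤ s1 * cx := mul_le_mul_of_nonneg_right hs1' (by positivity)
      have a2 : s * cy ≤ s1 * cy := mul_le_mul_of_nonneg_right hs1' (by positivity)
      have a3 : (s * cx) ^ 2 ≤ (s1 * cx) ^ 2 := pow_le_pow_left₀ (by positivity) a1 2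
      have a4 : (s * cy) ^ 2 ≤ (s1 * cy) ^ 2 := pow_le_pow_left₀ (by positivity) a2 2
      have a5 : (2 * (z : ℝ)) * (s * cx) ≤ 2 * z * (s1 * cx) :=
        mul_le_mul_of_nonneg_left a1 (by positivity)
      linarith
    apply V_u _ _ _ _ _ _ _ _ _ hu0.le hu1.le
    · refine le_trans (mono ax ay) ?_
      refine le_trans (le_of_eq ?_) (le_max_left _ _)
      unfold V; ring
    · refine le_trans (mono bx by') ?_
      refine le_trans (le_of_eq ?_) (le_max_right _ _)
      unfold V; ring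
  set X : ℝ := (1 - u) * ax + u * bx with hX
  set Y : ℝ := (1 - u) * ay + u * by' with hY
  have hXn : 0 ≤ X := by positivity
  have hYp : 0 < Y := by positivity
  have hYs : 0 < (s * Y) ^ 2 := by positivity
  have em : n + ((s * X) ^ 2 + (s * Y) ^ 2) - 2 * z * (s * X) = V n (-2 * z) s X Y := by
    unfold V; ring
  have ep : n + ((s * X) ^ 2 + (s * Y) ^ 2) + 2 * z * (s * X) = V n (2 * z) s X Y := by
    unfold V; ring
  have pm : 0 < V n (-2 * z) s X Y := by
    rw [← em]; nlinarith [sq_nonneg ((z : ℝ) - s * X)]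
  have pp : 0 < V n (2 * z) s X Y := by
    have : 0 ≤ 2 * z * (s * X) := by positivity
    rw [← ep]; nlinarith [sq_nonneg ((z : ℝ) - s * X)]
  rw [fc2_eq]
  push_cast
  unfold fF
  rw [em, ep, mul_add]
  apply add_le_add
  · refine le_trans Nat.cast_div_le ?_
    push_cast
    rw [mul_one_div]
    have : (1000000000000000000000000000000 : ℝ) = 10 ^ 30 := by norm_num
    rw [this]
    exact div_le_div_of_nonneg_left (by positivity) pm hm
  · refine le_trans Nat.cast_div_le ?_
    push_cast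
    rw [mul_one_div]
    have : (1000000000000000000000000000000 : ℝ) = 10 ^ 30 := by norm_num
    rw [this]
    exact div_le_div_of_nonneg_left (by positivity) pp hp

end VD
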