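import Pool.Agent.Helper50.VD.St

open MeasureTheory Set Filter Topology
open scoped ENNReal

noncomputable section

namespace VD.M_U1

/-- a point of `Om \ A` near `q` is not dominated by a point of `A` -/
theorem not_dom {A : Set (ℝ × ℝ)} (hA : DM A) {q a : ℝ × ℝ} (hq1 : 0 ≤ q.1)
    (hq : q ∈ closure (Om \ A)) (ha : a ∈ A) (h1 : q.1 < |a.1|) (h2 : q.2 < a.2) : False := by
  obtain ⟨ε, hε, hε1, hε2⟩ : ∃ ε : ℝ, 0 < ε ∧ q.1 + ε ≤ |a.1| ∧ q.2 + ε ≤ a.2 :=
    ⟨min (|a.1| - q.1) (a.2 - q.2), lt_min (by linarith) (by linarith),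
      by linarith [min_le_left (|a.1| - q.1) (a.2 - q.2)],
      by linarith [min_le_right (|a.1| - q.1) (a.2 - q.2)]⟩
  obtain ⟨w, hw, hd⟩ := Metric.mem_closure_iff.mp hq ε hε
  rw [Prod.dist_eq, max_lt_iff, Real.dist_eq, Real.dist_eq] at hd
  obtain ⟨d1, d2⟩ := hd
  apply hw.2
  apply hA.mono a ha w hw.1
  · rw [abs_lt] at d1
    rw [abs_le]
    constructor <;> linarith [d1.1, d1.2]
  · rw [abs_lt] at d2
    linarith [d2.1, d2.2]

end VD.M_U1

namespace VD

open VD.M_U1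

/-- the contact inequality and the two types -/
theorem mU1 (_hK0 : StK0) (_hK1 : StK1) (hK2 : StK2) (hK5 : StK5) (hP0 : StP0) (hP5 : StP5) :
    StU1 := by
  intro A ρ p q hC
  obtain ⟨-, hhom, -, -, -, -, hPB⟩ := hP0
  obtain ⟨dm1, -, -, -, null1⟩ := hPB 1 one_pos
  obtain ⟨dmρ, -, -, hdil, -⟩ := hPB ρ hC.hρ
  have mA := hC.dm.meas
  have m1 := dm1.meas
  have mρ := dmρ.meas
  refine ⟨?_, ?_, ?_⟩
  · -- pole `p`
    have ip : IntegrableOn (N p) A := (hK2 A mA hC.dm.sub hC.dm.vol p hC.p2).1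
    have ip1 : IntegrableOn (N p) (PB 1) := (hK2 _ m1 dm1.sub dm1.vol p hC.p2).1
    have iq : IntegrableOn (N q) A := (hK2 A mA hC.dm.sub hC.dm.vol q hC.q2).1
    have e1 : phi A p = ∫ y in A ∩ PB 1, N p y := by
      have h := integral_inter_add_sdiff m1 ip
      have h0 : volume (A \ PB 1) = 0 := by
        apply measure_mono_null _ null1
        intro z hz
        have hz0 : 0 < z.2 := hC.dm.sub hz.1
        refine ⟨hz0, ?_⟩
        apply le_antisymm (hC.out z hz.1)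
        by_contra hc
        exact hz.2 ⟨hz0, not_le.mp hc⟩
      have h1 : ∫ y in A \ PB 1, N p y = 0 := by
        rw [Measure.restrict_eq_zero.mpr h0]; simp
      unfold phi
      linarith
    have e2 : phi (PB 1) p = (∫ y in A ∩ PB 1, N p y) + ∫ y in PB 1 \ A, N p y := by
      have h := integral_inter_add_sdiff mA ip1
      rw [inter_comm] at h
      unfold phi
      linarith
    -- pole `q`
    have e3 : phi A q = phi (PB ρ) q + ∫ y in A \ PB ρ, N q y := by
      have h := integral_inter_add_sdiff mρ iq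
      have h1 : A ∩ PB ρ = PB ρ := by
        apply inter_eq_right.mpr
        intro z hz
        exact hC.inn z hz.1 hz.2
      rw [h1] at h
      unfold phi
      linarith
    have e4 : 994 * ρ ≤ phi (PB ρ) q := by
      have h := (hK5.1 (PB 1) ρ m1 dm1.sub hC.hρ).1 (q.1 / ρ, q.2 / ρ)
      rw [← hdil] at h
      have hq' : ((ρ * (q.1 / ρ), ρ * (q.2 / ρ)) : ℝ × ℝ) = q := by
        ext <;> simp only <;> field_simp [hC.hρ.ne']
      simp only at h
      rw [hq'] at h
      rw [h]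
      have hg : g (q.1 / ρ, q.2 / ρ) = 1 := by
        have h2 := hhom ρ (q.1 / ρ, q.2 / ρ) hC.hρ.le
        simp only at h2
        rw [hq', hC.gq] at h2
        have := hC.hρ
        field_simp at h2
        linarith
      have h3 := (hP5 (q.1 / ρ, q.2 / ρ) (div_nonneg hC.q1 hC.hρ.le) (div_nonneg hC.q2 hC.hρ.le)
        hg).1
      nlinarith [hC.hρ]
    have e5 := (hP5 p hC.p1 hC.p2 hC.gp).2
    have e6 := hC.le
    linarith
  · by_contra hcon
    push Not at hcon
    obtain ⟨h1, h2⟩ := hcon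
    obtain ⟨ε, hε, hε1, hε2⟩ : ∃ ε : ℝ, 0 < ε ∧ q.2 + ε ≤ p.2 ∧ q.1 + ε ≤ p.1 :=
      ⟨min (p.2 - q.2) (p.1 - q.1), lt_min (by linarith) (by linarith),
        by linarith [min_le_left (p.2 - q.2) (p.1 - q.1)],
        by linarith [min_le_right (p.2 - q.2) (p.1 - q.1)]⟩
    obtain ⟨a, ha, hd⟩ := Metric.mem_closure_iff.mp hC.pc ε hε
    rw [Prod.dist_eq, max_lt_iff, Real.dist_eq, Real.dist_eq, abs_lt, abs_lt] at hd
    obtain ⟨⟨d1, d2⟩, d3, d4⟩ := hd
    exact not_dom hC.dm hC.q1 hC.qc ha (lt_of_lt_of_le (by linarith) (le_abs_self _)) (by linarith)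
  · intro z hz hz2
    by_contra hcon
    exact not_dom hC.dm hC.q1 hC.qc hz (not_le.mp hcon) hz2

end VD
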