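import Pool.Agent.Helper50.VD.St

open MeasureTheory Set Filter Topology
open scoped ENNReal

noncomputable section

namespace VD.M_W4a

theorem fj_eq (z ns a b : ℕ) : fj z ns a b =
    (b - a) * 3000000000000000000 / (a * a + a * b + b * b + 3 * ns - 3 * z * (a + b)) +
    (b - a) * 3000000000000000000 / (a * a + a * b + b * b + 3 * ns + 3 * z * (a + b)) := rfl

theorem fp_eq (z ns a b : ℕ) : fp z ns a b =
    (b - a) * 1000000000000000000 /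
      mx (ns + a * a - 2 * z * a) (ns + b * b - 2 * z * b) +
    (b - a) * 1000000000000000000 / (ns + b * b + 2 * z * b) := rfl

theorem div_le_aux (u d : ℕ) (v K e : ℝ) (hu : (u : ℝ) ≤ v) (hv : 0 ≤ v) (he : 0 < e)
    (hd : e ≤ (d : ℝ)) (hK : v / e = K) : ((u / d : ℕ) : ℝ) ≤ K := by
  have h1 : ((u / d : ℕ) : ℝ) ≤ (u : ℝ) / d := Nat.cast_div_le
  have h2 : (u : ℝ) / d ≤ v / e := by
    apply div_le_div₀ hv hu he hd
  rw [← hK]; linarith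

theorem fj_le (z n a b s1 : ℕ) (s : ℝ) (hs0 : 0 < s) (hs : s ≤ s1) (hab : a ≤ b)
    (hz : z ^ 2 ≤ n) :
    (fj z (n + s1 * s1) a b : ℝ) ≤ 10 ^ 18 * (((b : ℝ) - a) *
      fF n z (((a : ℝ) ^ 2 + a * b + b ^ 2) / 3 + s ^ 2) ((a + b) / 2)) := by
  have hz' : (z : ℝ) ^ 2 ≤ n := by exact_mod_cast hz
  have hab' : (a : ℝ) ≤ b := by exact_mod_cast hab
  have hs2 : s ^ 2 ≤ (s1 : ℝ) ^ 2 := by
    apply pow_le_pow_left₀ hs0.le hs
  have ha0 : (0 : ℝ) ≤ a := by positivity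
  have hz0 : (0 : ℝ) ≤ z := by positivity
  have hpos : 0 < s ^ 2 := by positivity
  have e1 : (0 : ℝ) < a ^ 2 + a * b + b ^ 2 + 3 * (n + s ^ 2) - 3 * z * (a + b) := by
    nlinarith [sq_nonneg ((a : ℝ) - b), sq_nonneg (2 * (z : ℝ) - (a + b))]
  have e2 : (0 : ℝ) < a ^ 2 + a * b + b ^ 2 + 3 * (n + s ^ 2) + 3 * z * (a + b) := by
    have : (0 : ℝ) ≤ 3 * z * (a + b) := by positivity
    nlinarith [sq_nonneg ((a : ℝ) - b), sq_nonneg (2 * (z : ℝ) - (a + b))]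
  have hsub : 3 * z * (a + b) ≤ a * a + a * b + b * b + 3 * (n + s1 * s1) := by
    have : (3 * (z : ℝ) * (a + b)) ≤ a * a + a * b + b * b + 3 * (n + s1 * s1) := by nlinarith
    exact_mod_cast this
  rw [fj_eq]
  push_cast
  have h1 : (((b - a) * 3000000000000000000 /
      (a * a + a * b + b * b + 3 * (n + s1 * s1) - 3 * z * (a + b)) : ℕ) : ℝ) ≤
      3 * 10 ^ 18 * ((b : ℝ) - a) /
        (a ^ 2 + a * b + b ^ 2 + 3 * (n + s ^ 2) - 3 * z * (a + b)) := by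
    apply div_le_aux _ _ (3 * 10 ^ 18 * ((b : ℝ) - a)) _ _ _ _ e1 _ rfl
    · push_cast [Nat.cast_sub hab]; nlinarith
    · have : (0 : ℝ) ≤ (b : ℝ) - a := by linarith
      positivity
    · push_cast [Nat.cast_sub hsub]; nlinarith
  have h2 : (((b - a) * 3000000000000000000 /
      (a * a + a * b + b * b + 3 * (n + s1 * s1) + 3 * z * (a + b)) : ℕ) : ℝ) ≤
      3 * 10 ^ 18 * ((b : ℝ) - a) /
        (a ^ 2 + a * b + b ^ 2 + 3 * (n + s ^ 2) + 3 * z * (a + b)) := by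
    apply div_le_aux _ _ (3 * 10 ^ 18 * ((b : ℝ) - a)) _ _ _ _ e2 _ rfl
    · push_cast [Nat.cast_sub hab]; nlinarith
    · have : (0 : ℝ) ≤ (b : ℝ) - a := by linarith
      positivity
    · push_cast; nlinarith
  have h3 : 10 ^ 18 * (((b : ℝ) - a) *
      fF n z (((a : ℝ) ^ 2 + a * b + b ^ 2) / 3 + s ^ 2) ((a + b) / 2)) =
      3 * 10 ^ 18 * ((b : ℝ) - a) /
        (a ^ 2 + a * b + b ^ 2 + 3 * (n + s ^ 2) - 3 * z * (a + b)) +
      3 * 10 ^ 18 * ((b : ℝ) - a) /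
        (a ^ 2 + a * b + b ^ 2 + 3 * (n + s ^ 2) + 3 * z * (a + b)) := by
    unfold fF
    have e3 : (n : ℝ) + (((a : ℝ) ^ 2 + a * b + b ^ 2) / 3 + s ^ 2) - 2 * z * ((a + b) / 2) =
      (a ^ 2 + a * b + b ^ 2 + 3 * (n + s ^ 2) - 3 * z * (a + b)) / 3 := by ring
    have e4 : (n : ℝ) + (((a : ℝ) ^ 2 + a * b + b ^ 2) / 3 + s ^ 2) + 2 * z * ((a + b) / 2) =
      (a ^ 2 + a * b + b ^ 2 + 3 * (n + s ^ 2) + 3 * z * (a + b)) / 3 := by ring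
    rw [e3, e4]
    field_simp
  rw [h3]
  linarith

theorem fp_le (z n a b s1 : ℕ) (s y : ℝ) (hs0 : 0 < s) (hs : s ≤ s1) (hab : a ≤ b)
    (hz : z ^ 2 ≤ n) (hy : (a : ℝ) ≤ y) (hy' : y ≤ b) :
    (fp z (n + s1 * s1) a b : ℝ) ≤ ((b : ℝ) - a) * (10 ^ 18 * fF n z (y ^ 2 + s ^ 2) y) := by
  have hz' : (z : ℝ) ^ 2 ≤ n := by exact_mod_cast hz
  have hab' : (a : ℝ) ≤ b := by exact_mod_cast hab
  have hs2 : s ^ 2 ≤ (s1 : ℝ) ^ 2 := by
    apply pow_le_pow_left₀ hs0.le hs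
  have ha0 : (0 : ℝ) ≤ a := by positivity
  have hz0 : (0 : ℝ) ≤ z := by positivity
  have hpos : 0 < s ^ 2 := by positivity
  have hy0 : 0 ≤ y := by linarith
  have e1 : (0 : ℝ) < n + (y ^ 2 + s ^ 2) - 2 * z * y := by
    nlinarith [sq_nonneg ((z : ℝ) - y)]
  have e2 : (0 : ℝ) < n + (y ^ 2 + s ^ 2) + 2 * z * y := by
    have : (0 : ℝ) ≤ 2 * z * y := by positivity
    nlinarith [sq_nonneg ((z : ℝ) - y)]
  have hsub : ∀ c : ℕ, 2 * z * c ≤ n + s1 * s1 + c * c := by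
    intro c
    have : (2 * (z : ℝ) * c) ≤ n + s1 * s1 + c * c := by
      nlinarith [sq_nonneg ((z : ℝ) - c), sq_nonneg (s1 : ℝ)]
    exact_mod_cast this
  rw [fp_eq]
  push_cast
  have hba : (0 : ℝ) ≤ (b : ℝ) - a := by linarith
  have h1 : (((b - a) * 1000000000000000000 /
      mx (n + s1 * s1 + a * a - 2 * z * a) (n + s1 * s1 + b * b - 2 * z * b) : ℕ) : ℝ) ≤
      10 ^ 18 * ((b : ℝ) - a) / (n + (y ^ 2 + s ^ 2) - 2 * z * y) := by
    apply div_le_aux _ _ (10 ^ 18 * ((b : ℝ) - a)) _ _ _ _ e1 _ rfl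
    · push_cast [Nat.cast_sub hab]; nlinarith
    · positivity
    · rw [mx_eq]
      push_cast [Nat.cast_sub (hsub a), Nat.cast_sub (hsub b)]
      by_cases hc : (y : ℝ) + a ≤ 2 * z
      · apply le_trans _ (le_max_left _ _)
        nlinarith [mul_nonneg (sub_nonneg.mpr hy) (sub_nonneg.mpr hc)]
      · apply le_trans _ (le_max_right _ _)
        have hc' : 0 ≤ y + b - 2 * z := by linarith [not_le.mp hc]
        nlinarith [mul_nonneg (sub_nonneg.mpr hy') hc']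
  have h2 : (((b - a) * 1000000000000000000 /
      (n + s1 * s1 + b * b + 2 * z * b) : ℕ) : ℝ) ≤
      10 ^ 18 * ((b : ℝ) - a) / (n + (y ^ 2 + s ^ 2) + 2 * z * y) := by
    apply div_le_aux _ _ (10 ^ 18 * ((b : ℝ) - a)) _ _ _ _ e2 _ rfl
    · push_cast [Nat.cast_sub hab]; nlinarith
    · positivity
    · push_cast
      have h5 : (2 * (z : ℝ)) * y ≤ 2 * z * b := by
        apply mul_le_mul_of_nonneg_left hy' (by positivity)
      nlinarith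
  have h3 : ((b : ℝ) - a) * (10 ^ 18 * fF n z (y ^ 2 + s ^ 2) y) =
      10 ^ 18 * ((b : ℝ) - a) / (n + (y ^ 2 + s ^ 2) - 2 * z * y) +
      10 ^ 18 * ((b : ℝ) - a) / (n + (y ^ 2 + s ^ 2) + 2 * z * y) := by
    unfold fF
    field_simp
  rw [h3]
  linarith

/-- Jensen for the kernel -/
theorem kS_int (hW2 : StW2) (z : ℝ × ℝ) (s : ℝ) (hs : 0 < s) (a b : ℝ) (hab : a ≤ b) :
    (b - a) * fF (10 ^ 4 * (z.1 ^ 2 + z.2 ^ 2)) (100 * z.1) ((a ^ 2 + a * b + b ^ 2) / 3 + s ^ 2)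
      ((a + b) / 2) ≤ ∫ y in a..b, kS z s y := by
  rcases hab.eq_or_lt with rfl | hab
  · simp
  have hn : ∀ x : ℝ, x ^ 2 = (100 * z.1) ^ 2 →
      x ^ 2 < 10 ^ 4 * (z.1 ^ 2 + z.2 ^ 2) + s ^ 2 := by
    intro x hx
    rw [hx]
    have : 0 < s ^ 2 := by positivity
    nlinarith [sq_nonneg z.2]
  have hpos : ∀ x : ℝ, x ^ 2 = (100 * z.1) ^ 2 → ∀ y : ℝ,
      0 < 10 ^ 4 * (z.1 ^ 2 + z.2 ^ 2) + s ^ 2 - 2 * x * y + y ^ 2 := by
    intro x hx y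
    nlinarith [hn x hx, sq_nonneg (x - y)]
  have hI : ∀ x : ℝ, x ^ 2 = (100 * z.1) ^ 2 → IntervalIntegrable
      (fun y => 1 / (10 ^ 4 * (z.1 ^ 2 + z.2 ^ 2) + s ^ 2 - 2 * x * y + y ^ 2)) volume a b := by
    intro x hx
    apply Continuous.intervalIntegrable
    apply continuous_const.div (by fun_prop)
    intro y
    exact (hpos x hx y).ne'
  have h1 := hW2 (10 ^ 4 * (z.1 ^ 2 + z.2 ^ 2) + s ^ 2) (100 * z.1) a b hab (hn _ rfl)
  have h2 := hW2 (10 ^ 4 * (z.1 ^ 2 + z.2 ^ 2) + s ^ 2) (-(100 * z.1)) a b hab (hn _ (by ring))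
  have h3 : (∫ y in a..b, kS z s y) =
      (∫ y in a..b, 1 / (10 ^ 4 * (z.1 ^ 2 + z.2 ^ 2) + s ^ 2 - 2 * (100 * z.1) * y + y ^ 2)) +
      ∫ y in a..b, 1 / (10 ^ 4 * (z.1 ^ 2 + z.2 ^ 2) + s ^ 2 - 2 * (-(100 * z.1)) * y + y ^ 2) := by
    rw [← intervalIntegral.integral_add (hI _ rfl) (hI _ (by ring))]
    apply intervalIntegral.integral_congr
    intro y _
    simp only [kS, fF]
    congr 2 <;> ring
  rw [h3]
  refine le_trans (le_of_eq ?_) (add_le_add h1 h2)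
  unfold fF
  rw [mul_add]
  congr 1
  · have e3 : 10 ^ 4 * (z.1 ^ 2 + z.2 ^ 2) + ((a ^ 2 + a * b + b ^ 2) / 3 + s ^ 2) -
        2 * (100 * z.1) * ((a + b) / 2) =
      (3 * (10 ^ 4 * (z.1 ^ 2 + z.2 ^ 2) + s ^ 2) - 3 * (100 * z.1) * (a + b) +
        (a ^ 2 + a * b + b ^ 2)) / 3 := by ring
    rw [e3, one_div_div]
    ring
  · have e3 : 10 ^ 4 * (z.1 ^ 2 + z.2 ^ 2) + ((a ^ 2 + a * b + b ^ 2) / 3 + s ^ 2) +
        2 * (100 * z.1) * ((a + b) / 2) =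
      (3 * (10 ^ 4 * (z.1 ^ 2 + z.2 ^ 2) + s ^ 2) - 3 * (-(100 * z.1)) * (a + b) +
        (a ^ 2 + a * b + b ^ 2)) / 3 := by ring
    rw [e3, one_div_div]
    ring

/-- combination: chord condition gives the two cell bounds -/
theorem cell (hW1 : StW1) (hW2 : StW2) (n0 z0 n1 z1 : ℕ) (h0 : z0 ^ 2 ≤ n0) (h1 : z1 ^ 2 ≤ n1)
    (hz : z0 < z1) (hn : n0 ≤ n1) (hnn : n1 + z0 ^ 2 ≤ n0 + z1 ^ 2)
    (z : ℝ × ℝ) (hx0 : (z0 : ℝ) ≤ 100 * z.1) (hx1 : 100 * z.1 ≤ z1)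
    (hch : (10 ^ 4 * (z.1 ^ 2 + z.2 ^ 2)) * ((z1 : ℝ) ^ 2 - (z0 : ℝ) ^ 2) ≤
      n0 * ((z1 : ℝ) ^ 2 - (100 * z.1) ^ 2) + n1 * ((100 * z.1) ^ 2 - (z0 : ℝ) ^ 2))
    (s : ℝ) (s1 a b : ℕ) (hs0 : 0 < s) (hs : s ≤ s1) (hab : a ≤ b) :
    ((min (fj z0 (n0 + s1 * s1) a b) (fj z1 (n1 + s1 * s1) a b) : ℕ) : ℝ) ≤
      10 ^ 18 * ∫ y in (a : ℝ)..(b : ℝ), kS z s y ∧
    ∀ y : ℝ, (a : ℝ) ≤ y → y ≤ b →
      ((min (fp z0 (n0 + s1 * s1) a b) (fp z1 (n1 + s1 * s1) a b) : ℕ) : ℝ) ≤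
        ((b : ℝ) - a) * (10 ^ 18 * kS z s y) := by
  have hab' : (a : ℝ) ≤ b := by exact_mod_cast hab
  have hba : (0 : ℝ) ≤ (b : ℝ) - a := by linarith
  have ha0 : (0 : ℝ) ≤ a := by positivity
  have hs2 : 0 < s ^ 2 := by positivity
  have key : ∀ M m : ℝ, 0 ≤ m → m ^ 2 < M →
      min (fF n0 z0 M m) (fF n1 z1 M m) ≤ fF (10 ^ 4 * (z.1 ^ 2 + z.2 ^ 2)) (100 * z.1) M m := by
    intro M m hm hmM
    apply hW1 n0 z0 n1 z1 _ _ M m (by positivity) hx0 hx1 (by exact_mod_cast hz) hm hmM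
      (by exact_mod_cast h0) (by exact_mod_cast h1) (by exact_mod_cast hn)
    · have : ((n1 : ℝ) + z0 ^ 2) ≤ n0 + z1 ^ 2 := by exact_mod_cast hnn
      linarith
    · nlinarith [sq_nonneg z.2]
    · exact hch
  constructor
  · have k1 := key (((a : ℝ) ^ 2 + a * b + b ^ 2) / 3 + s ^ 2) ((a + b) / 2) (by positivity)
      (by nlinarith [sq_nonneg ((a : ℝ) - b)])
    have k2 := kS_int hW2 z s hs0 a b hab'
    have f0 := fj_le z0 n0 a b s1 s hs0 hs hab h0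
    have f1 := fj_le z1 n1 a b s1 s hs0 hs hab h1
    have k3 : 10 ^ 18 * (((b : ℝ) - a) *
        min (fF n0 z0 (((a : ℝ) ^ 2 + a * b + b ^ 2) / 3 + s ^ 2) ((a + b) / 2))
          (fF n1 z1 (((a : ℝ) ^ 2 + a * b + b ^ 2) / 3 + s ^ 2) ((a + b) / 2))) ≤
        10 ^ 18 * ∫ y in (a : ℝ)..(b : ℝ), kS z s y := by
      apply mul_le_mul_of_nonneg_left _ (by positivity)
      exact le_trans (mul_le_mul_of_nonneg_left k1 hba) k2
    refine le_trans ?_ k3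
    rw [Nat.cast_min]
    rcases le_total (fF n0 z0 (((a : ℝ) ^ 2 + a * b + b ^ 2) / 3 + s ^ 2) ((a + b) / 2))
          (fF n1 z1 (((a : ℝ) ^ 2 + a * b + b ^ 2) / 3 + s ^ 2) ((a + b) / 2)) with h | h
    · rw [min_eq_left h]; exact le_trans (min_le_left _ _) f0
    · rw [min_eq_right h]; exact le_trans (min_le_right _ _) f1
  · intro y hy hy'
    have k1 := key (y ^ 2 + s ^ 2) y (by linarith) (by linarith)
    have f0 := fp_le z0 n0 a b s1 s y hs0 hs hab h0 hy hy'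
    have f1 := fp_le z1 n1 a b s1 s y hs0 hs hab h1 hy hy'
    have k3 : ((b : ℝ) - a) * (10 ^ 18 *
        min (fF n0 z0 (y ^ 2 + s ^ 2) y) (fF n1 z1 (y ^ 2 + s ^ 2) y)) ≤
        ((b : ℝ) - a) * (10 ^ 18 * kS z s y) := by
      apply mul_le_mul_of_nonneg_left _ hba
      exact mul_le_mul_of_nonneg_left k1 (by positivity)
    refine le_trans ?_ k3
    rw [Nat.cast_min]
    rcases le_total (fF n0 z0 (y ^ 2 + s ^ 2) y) (fF n1 z1 (y ^ 2 + s ^ 2) y) with h | h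
    · rw [min_eq_left h]; exact le_trans (min_le_left _ _) f0
    · rw [min_eq_right h]; exact le_trans (min_le_right _ _) f1

theorem cP_eq (p : Pts) (s2 a b : ℕ) :
    cP p s2 a b = min (fj p.xP (p.nP + s2) a b) (fj 647500 (419256250000 + s2) a b) := by
  rw [← mn_eq]; rfl

theorem cQ_eq (p : Pts) (s2 a b : ℕ) :
    cQ p s2 a b = min (fj 0 (p.yT * p.yT + s2) a b) (fj p.xT (p.xT * p.xT + s2) a b) := by
  rw [← mn_eq]; rfl

theorem cR_eq (p : Pts) (s2 a b : ℕ) :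
    cR p s2 a b =
      min (min (fp p.xP (p.nP + s2) a b) (fp 647500 (419256250000 + s2) a b))
        (min (fp 0 (p.yT * p.yT + s2) a b) (fp p.xT (p.xT * p.xT + s2) a b)) := by
  rw [← mn_eq, ← mn_eq, ← mn_eq]; rfl

theorem yT_eq (R : ℕ) : (mkPts R).yT = (R * 3887 + 99) / 100 := rfl
theorem xT_eq (R : ℕ) : (mkPts R).xT = (R * 6475 + 99) / 100 := rfl
theorem yT_ge (R : ℕ) : R * 3887 ≤ 100 * (mkPts R).yT := by rw [yT_eq]; omega
theorem xT_ge (R : ℕ) : R * 6475 ≤ 100 * (mkPts R).xT := by rw [xT_eq]; omega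
theorem yT_le_xT (R : ℕ) : (mkPts R).yT ≤ (mkPts R).xT := by rw [yT_eq, xT_eq]; omega

theorem chord (u v L H X Y : ℝ) (hu : 0 ≤ u) (hLpos : 0 < L) (hHpos : 0 < H) (hL : u ≤ L)
    (hxT : 100 * L ≤ X) (hyT : 100 * H ≤ Y)
    (hq : (u ^ 2 + v ^ 2) * L ^ 2 ≤ H ^ 2 * (L ^ 2 - u ^ 2) + L ^ 2 * u ^ 2) :
    (10 ^ 4 * (u ^ 2 + v ^ 2)) * X ^ 2 ≤
        Y ^ 2 * (X ^ 2 - (100 * u) ^ 2) + X ^ 2 * (100 * u) ^ 2 := by
  have hXpos : 0 < X := by linarith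
  have h1 : 10 ^ 4 * (u ^ 2 + v ^ 2) ≤
      10 ^ 4 * H ^ 2 * (1 - u ^ 2 / L ^ 2) + (100 * u) ^ 2 := by
    have h2 : (u ^ 2 + v ^ 2) ≤ H ^ 2 * (1 - u ^ 2 / L ^ 2) + u ^ 2 := by
      have h3 : H ^ 2 * (1 - u ^ 2 / L ^ 2) + u ^ 2 =
          (H ^ 2 * (L ^ 2 - u ^ 2) + L ^ 2 * u ^ 2) / L ^ 2 := by
        field_simp
      rw [h3, le_div_iff₀ (by positivity)]
      exact hq
    nlinarith
  have h4 : u ^ 2 / L ^ 2 ≤ 1 := by
    rw [div_le_one (by positivity)]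
    exact pow_le_pow_left₀ hu hL 2
  have h5 : (100 * u) ^ 2 / X ^ 2 ≤ u ^ 2 / L ^ 2 := by
    rw [div_le_div_iff₀ (by positivity) (by positivity)]
    have h6 : (100 * L) ^ 2 ≤ X ^ 2 := pow_le_pow_left₀ (by positivity) hxT 2
    have h7 : 0 ≤ u ^ 2 := by positivity
    nlinarith [mul_le_mul_of_nonneg_left h6 h7]
  have h8 : (100 * H) ^ 2 ≤ Y ^ 2 := pow_le_pow_left₀ (by positivity) hyT 2
  have h9 : 10 ^ 4 * H ^ 2 * (1 - u ^ 2 / L ^ 2) ≤ Y ^ 2 * (1 - (100 * u) ^ 2 / X ^ 2) := by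
    apply mul_le_mul (by linarith) (by linarith) (by linarith) (by positivity)
  have h10 : Y ^ 2 * (X ^ 2 - (100 * u) ^ 2) + X ^ 2 * (100 * u) ^ 2 =
      (Y ^ 2 * (1 - (100 * u) ^ 2 / X ^ 2) + (100 * u) ^ 2) * X ^ 2 := by
    field_simp
  rw [h10]
  apply mul_le_mul_of_nonneg_right _ (by positivity)
  linarith

end VD.M_W4a

namespace VD

open VD.M_W4a

/-- cell bounds for the kernel (Jensen / pointwise), floors -/
theorem mW4a (hW1 : StW1) (hW2 : StW2) (hA1 : StA1) (hA3 : StA3) (hP0 : StP0) : StW4a := by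
  intro R1 hR1 hR1' harc hnP s s1 a b hs0 hs hab
  obtain ⟨a1, a2, a3, a4, a5⟩ := hA1 R1 hR1 hR1' harc hnP
  obtain ⟨-, -, g3, -, -, -, -⟩ := hP0
  have cR1 : ∀ c : ℕ, c = cR (mkPts R1) (s1 * s1) a b →
      c ≤ min (fp (mkPts R1).xP ((mkPts R1).nP + s1 * s1) a b)
        (fp 647500 (419256250000 + s1 * s1) a b) ∧
      c ≤ min (fp 0 ((mkPts R1).yT * (mkPts R1).yT + s1 * s1) a b)
        (fp (mkPts R1).xT ((mkPts R1).xT * (mkPts R1).xT + s1 * s1) a b) := by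
    intro c hc
    rw [hc, cR_eq]
    exact ⟨min_le_left _ _, min_le_right _ _⟩
  obtain ⟨r1, r2⟩ := cR1 _ rfl
  constructor
  · intro p hp1 hp2 hgp hpy
    have hx1 : 100 * p.1 ≤ ((647500 : ℕ) : ℝ) := by
      have := (g3 p hp2).2.1
      rw [hgp, abs_of_nonneg hp1] at this
      push_cast; linarith
    have hc := cell hW1 hW2 (mkPts R1).nP (mkPts R1).xP 419256250000 647500 a2 (by norm_num)
      a1 hnP (by linarith) p (a5 p hp1 hp2 hgp hpy) hx1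
      (by
        have := a4 p hp1 hp2 hgp.le hpy
        push_cast
        norm_num at this ⊢
        linarith) s s1 a b hs0 hs hab
    rw [cP_eq]
    refine ⟨hc.1, fun y hy hy' => le_trans ?_ (hc.2 y hy hy')⟩
    exact_mod_cast r1
  · intro q hq1 hq2 hgq
    have hR0 : (0 : ℝ) < (R1 : ℝ) / 10000 := by
      have : (0 : ℝ) < R1 := by exact_mod_cast hR1
      positivity
    have hq := hA3 ((R1 : ℝ) / 10000) q hR0 hq1 hq2 hgq
    have hL : q.1 ≤ 6475 * ((R1 : ℝ) / 10000) := by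
      have := (g3 q hq2).2.1
      rw [abs_of_nonneg hq1] at this
      linarith
    have hyT : 100 * (3887 * ((R1 : ℝ) / 10000)) ≤ (mkPts R1).yT := by
      have : R1 * 3887 ≤ 100 * (mkPts R1).yT := yT_ge R1
      have h2 : ((R1 : ℝ) * 3887) ≤ 100 * ((mkPts R1).yT : ℝ) := by exact_mod_cast this
      linarith
    have hxT : 100 * (6475 * ((R1 : ℝ) / 10000)) ≤ (mkPts R1).xT := by
      have : R1 * 6475 ≤ 100 * (mkPts R1).xT := xT_ge R1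
      have h2 : ((R1 : ℝ) * 6475) ≤ 100 * ((mkPts R1).xT : ℝ) := by exact_mod_cast this
      linarith
    have hyx : (mkPts R1).yT ≤ (mkPts R1).xT := yT_le_xT R1
    have hch := chord q.1 q.2 (6475 * ((R1 : ℝ) / 10000)) (3887 * ((R1 : ℝ) / 10000))
      ((mkPts R1).xT : ℝ) ((mkPts R1).yT : ℝ) hq1 (by positivity) (by positivity) hL hxT hyT hq
    have hc := cell hW1 hW2 ((mkPts R1).yT * (mkPts R1).yT) 0 ((mkPts R1).xT * (mkPts R1).xT)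
      (mkPts R1).xT (by simp) (by rw [sq]) a3 (Nat.mul_le_mul hyx hyx)
      (by rw [sq, sq]; simp) q (by push_cast; linarith)
      (by linarith)
      (by
        push_cast
        nlinarith [hch]) s s1 a b hs0 hs hab
    rw [cQ_eq]
    refine ⟨hc.1, fun y hy hy' => le_trans ?_ (hc.2 y hy hy')⟩
    exact_mod_cast r2

end VD
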